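import Pool.Agent.helper17.SG.SpecB

/-!
# sg: B03, identities for `kk` and `pt`
-/

set_option autoImplicit false

open MeasureTheory Set Metric Filter Topology
open scoped ENNReal NNReal ComplexConjugate

namespace Pool.Agent.SG

theorem B03 (h1 : B01_stmt) (h2 : B02_stmt) : B03_stmt := by
  intro Γ _ A
  obtain ⟨-, hop, -, hone, hmul, -⟩ := h1 Γ A
  have z0 : ‖(0 : ℂ)‖ ≤ 1 := by simp
  have hpt : ∀ γ, ‖A.pt γ‖ < 1 := fun γ => hop γ 0 (by simp)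
  have hk : ∀ γ, A.kk γ = 1 - ‖A.pt γ‖ ^ 2 := fun γ => rfl
  have i1 : ∀ γ, 0 < A.kk γ ∧ A.kk γ ≤ 1 := by
    intro γ
    have h := hpt γ
    have h0 : 0 ≤ ‖A.pt γ‖ := norm_nonneg _
    rw [hk]
    constructor <;> nlinarith
  have i3 : A.pt 1 = 0 := hone 0 z0
  have i2 : A.kk 1 = 1 := by rw [hk, i3]; simp
  have i6 : ∀ γ δ, A.pt (γ * δ) = A.act γ (A.pt δ) := fun γ δ => hmul γ δ 0 z0
  have i7 : ∀ γ δ, A.kk (γ * δ) * ‖1 - conj (A.pt γ⁻¹) * A.pt δ‖ ^ 2 = A.kk γ * A.kk δ := by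
    intro γ δ
    obtain ⟨-, h, -⟩ := h2 Γ A γ
    have := h (A.pt δ) (hpt δ).le
    rw [← i6] at this
    exact this
  have i5 : ∀ γ, A.kk γ⁻¹ = A.kk γ := by
    intro γ
    have h := i7 γ γ⁻¹
    rw [mul_inv_cancel, i2, one_mul] at h
    have h3 : conj (A.pt γ⁻¹) * A.pt γ⁻¹ = ((‖A.pt γ⁻¹‖ ^ 2 : ℝ) : ℂ) := by
      rw [mul_comm, Complex.mul_conj, Complex.normSq_eq_norm_sq]
    have h4 : ‖1 - conj (A.pt γ⁻¹) * A.pt γ⁻¹‖ = A.kk γ⁻¹ := by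
      have h5 : (1 : ℂ) - ((‖A.pt γ⁻¹‖ ^ 2 : ℝ) : ℂ) = ((A.kk γ⁻¹ : ℝ) : ℂ) := by
        rw [hk]; push_cast; ring
      rw [h3, h5, Complex.norm_real, Real.norm_eq_abs, abs_of_pos (i1 _).1]
    rw [h4, sq] at h
    exact mul_right_cancel₀ (i1 γ⁻¹).1.ne' h
  have i8 : ∀ γ δ, A.kk (γ⁻¹ * δ) * ‖1 - conj (A.pt γ) * A.pt δ‖ ^ 2 = A.kk γ * A.kk δ := by
    intro γ δ
    have h := i7 γ⁻¹ δ
    rwa [inv_inv, i5] at h
  have i9 : ∀ γ δ, A.kk γ * A.kk δ ≤ 4 * A.kk (γ * δ) := by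
    intro γ δ
    have h : ‖1 - conj (A.pt γ⁻¹) * A.pt δ‖ ≤ 2 := by
      refine (norm_sub_le _ _).trans ?_
      rw [norm_mul, RCLike.norm_conj, norm_one]
      have ha := (hpt γ⁻¹).le
      have hb := (hpt δ).le
      have hc : ‖A.pt γ⁻¹‖ * ‖A.pt δ‖ ≤ 1 := mul_le_one₀ ha (norm_nonneg _) hb
      linarith
    have h' : ‖1 - conj (A.pt γ⁻¹) * A.pt δ‖ ^ 2 ≤ 4 := by
      have h0 : 0 ≤ ‖1 - conj (A.pt γ⁻¹) * A.pt δ‖ := norm_nonneg _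
      nlinarith
    rw [← i7 γ δ, mul_comm]
    exact mul_le_mul_of_nonneg_right h' (i1 _).1.le
  refine ⟨i1, i2, i3, hpt, i5, i6, i7, i8, i9, ?_, ?_, ?_⟩
  · intro γ δ
    have h := i9 (γ * δ) δ⁻¹
    rwa [mul_inv_cancel_right, i5] at h
  · intro γ δ
    have h := i9 γ⁻¹ (γ * δ)
    rw [inv_mul_cancel_left, i5, mul_comm] at h
    exact h
  · intro γ δ
    obtain ⟨h, -, -⟩ := h2 Γ A γ
    have h3 := h (A.pt δ) 0 (hpt δ).le z0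
    rw [← i6, mul_zero, sub_zero, norm_one, mul_one, sub_zero] at h3
    exact h3

end Pool.Agent.SG
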