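import Pool.Agent.helper56.SG.SpecG

/-!
# sg: GLO, growth from the derivative
-/

set_option autoImplicit false

open MeasureTheory Set Metric Filter Topology
open scoped ENNReal NNReal ComplexConjugate
open Pool.Agent.SG

noncomputable section

namespace Pool.Agent.SGG

theorem GLO : GLO_stmt := by
  intro F C hF hC z hz
  have hr : ‖z‖ < 1 := by simpa using hz
  have hr0 : 0 ≤ ‖z‖ := norm_nonneg _
  have hC0 : 0 ≤ C := by
    have h := hC 0 (by simp)
    have h1 : 0 ≤ (1 - ‖(0 : ℂ)‖ ^ 2) * ‖deriv F 0‖ := by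
      rw [norm_zero]
      have := norm_nonneg (deriv F 0)
      nlinarith
    linarith
  have hmem : ∀ t ∈ Icc (0 : ℝ) 1, (t : ℂ) * z ∈ ball (0 : ℂ) 1 ∧ ‖(t : ℂ) * z‖ = t * ‖z‖ ∧
      0 < 1 - t * ‖z‖ := by
    intro t ht
    have h1 : ‖(t : ℂ) * z‖ = t * ‖z‖ := by
      rw [norm_mul, Complex.norm_real, Real.norm_eq_abs, abs_of_nonneg ht.1]
    have h2 : t * ‖z‖ ≤ ‖z‖ := mul_le_of_le_one_left hr0 ht.2
    refine ⟨?_, h1, by linarith⟩
    rw [mem_ball_zero_iff, h1]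
    linarith
  have hd : ∀ t ∈ Icc (0 : ℝ) 1, HasDerivAt (fun t : ℝ => F ((t : ℂ) * z) - F 0)
      (deriv F ((t : ℂ) * z) * z) t := by
    intro t ht
    have h1 : HasDerivAt (fun t : ℝ => (t : ℂ) * z) z t := by
      have := (Complex.ofRealCLM.hasDerivAt (x := t)).mul_const z
      simpa using this
    have h2 : HasDerivAt F (deriv F ((t : ℂ) * z)) ((t : ℂ) * z) :=
      (hF.differentiableAt (isOpen_ball.mem_nhds (hmem t ht).1)).hasDerivAt
    exact (HasDerivAt.comp (h₂ := F) t h2 h1).sub_const _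
  have hB : ∀ t ∈ Icc (0 : ℝ) 1, HasDerivAt (fun t : ℝ => -(C * Real.log (1 - t * ‖z‖)))
      (C * (‖z‖ / (1 - t * ‖z‖))) t := by
    intro t ht
    have h1 : HasDerivAt (fun t : ℝ => 1 - t * ‖z‖) (-‖z‖) t := by
      simpa using ((hasDerivAt_id t).mul_const ‖z‖).const_sub 1
    have h2 := ((h1.log (hmem t ht).2.2.ne').const_mul C).neg
    have h3 : -(C * (-‖z‖ / (1 - t * ‖z‖))) = C * (‖z‖ / (1 - t * ‖z‖)) := by ring
    rw [h3] at h2
    exact h2
  have key := image_norm_le_of_norm_deriv_right_le_deriv_boundary' (a := 0) (b := 1)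
    (f := fun t : ℝ => F ((t : ℂ) * z) - F 0) (f' := fun t => deriv F ((t : ℂ) * z) * z)
    (B := fun t : ℝ => -(C * Real.log (1 - t * ‖z‖))) (B' := fun t => C * (‖z‖ / (1 - t * ‖z‖)))
    (fun t ht => (hd t ht).continuousAt.continuousWithinAt)
    (fun t ht => (hd t ⟨ht.1, ht.2.le⟩).hasDerivWithinAt)
    (by simp)
    (fun t ht => (hB t ht).continuousAt.continuousWithinAt)
    (fun t ht => (hB t ⟨ht.1, ht.2.le⟩).hasDerivWithinAt)
    (fun t ht => by
      obtain ⟨h1, h2, h3⟩ := hmem t ⟨ht.1, ht.2.le⟩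
      have h4 := hC _ h1
      rw [h2] at h4
      have h5 : 1 - t * ‖z‖ ≤ 1 - (t * ‖z‖) ^ 2 := by
        have h6 : 0 ≤ t * ‖z‖ := mul_nonneg ht.1 hr0
        nlinarith
      have h7 : (1 - t * ‖z‖) * ‖deriv F ((t : ℂ) * z)‖ ≤ C :=
        (mul_le_mul_of_nonneg_right h5 (norm_nonneg _)).trans h4
      rw [norm_mul, ← mul_div_assoc, le_div_iff₀ h3]
      calc ‖deriv F ((t : ℂ) * z)‖ * ‖z‖ * (1 - t * ‖z‖)
          = ((1 - t * ‖z‖) * ‖deriv F ((t : ℂ) * z)‖) * ‖z‖ := by ring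
        _ ≤ C * ‖z‖ := mul_le_mul_of_nonneg_right h7 hr0)
    (x := 1) ⟨zero_le_one, le_rfl⟩
  simp only [Complex.ofReal_one, one_mul] at key
  rw [one_div, Real.log_inv, mul_neg]
  exact key

end Pool.Agent.SGG
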