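import Pool.Agent.helper56.SG.SpecG

/-!
# sg: TAU, an isometry that maps `0` to a given point
-/

set_option autoImplicit false

open MeasureTheory Set Metric Filter Topology
open scoped ENNReal NNReal ComplexConjugate
open Pool.Agent.SG

noncomputable section

namespace Pool.Agent.SGG

theorem TAU : TAU_stmt := by
  intro x hx
  have h1 : ‖x‖ < 1 := by simpa using hx
  have h0 : 0 ≤ ‖x‖ := norm_nonneg _
  have h2 : 0 < 1 - ‖x‖ ^ 2 := by nlinarith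
  have h3 : 0 < √(1 - ‖x‖ ^ 2) := Real.sqrt_pos.2 h2
  have h4 : √(1 - ‖x‖ ^ 2) ^ 2 = 1 - ‖x‖ ^ 2 := Real.sq_sqrt h2.le
  obtain ⟨α, hα⟩ : ∃ α : ℝ, α = (√(1 - ‖x‖ ^ 2))⁻¹ := ⟨_, rfl⟩
  have hα0 : 0 < α := by rw [hα]; exact inv_pos.2 h3
  have hα2 : α ^ 2 * (1 - ‖x‖ ^ 2) = 1 := by
    rw [hα, inv_pow, h4, inv_mul_cancel₀ h2.ne']
  refine ⟨(α : ℂ), (α : ℂ) * x, ?_, ?_⟩
  · unfold IsoM
    rw [norm_mul, Complex.norm_real, Real.norm_eq_abs, abs_of_pos hα0]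
    nlinarith
  · unfold mob
    rw [mul_zero, mul_zero, zero_add, zero_add, Complex.conj_ofReal]
    have : (α : ℂ) ≠ 0 := by exact_mod_cast hα0.ne'
    field_simp

end Pool.Agent.SGG
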