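import Pool.Agent.helper24.SG.SpecD

/-!
# sg: D11, mean porosity, assembly
-/

set_option autoImplicit false

open MeasureTheory Set Metric Filter Topology
open scoped ENNReal NNReal ComplexConjugate

namespace Pool.Agent.SG

theorem D11_expo (q : ℕ) (hq : 2 ≤ q) : 0 ≤ expo q ∧ expo q < 1 := by
  have h2 : (2 : ℝ) ≤ q := by exact_mod_cast hq
  have hl2 : 0 < Real.log 2 := Real.log_pos (by norm_num)
  have hlq : Real.log 2 ≤ Real.log q := Real.log_le_log (by norm_num) h2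
  have hlq0 : 0 < Real.log q := lt_of_lt_of_le hl2 hlq
  have h3 : 0 < Real.log 2 / (4 * Real.log q) := by positivity
  have h4 : Real.log 2 / (4 * Real.log q) ≤ 1 := by
    rw [div_le_one (by positivity)]
    linarith
  unfold expo
  constructor <;> linarith

theorem D11 (h6 : D06_stmt) (h9 : D09_stmt) (h10 : D10_stmt) : D11_stmt := by
  intro κ ρ N hκ hρ hρ1
  have hκ' : 0 < min κ 1 := lt_min hκ one_pos
  obtain ⟨N₁, hN₁⟩ : ∃ N₁ : ℕ, N₁ = N (1 / (9 * (4 / min κ 1 + 15 / ρ) ^ 4)) := ⟨_, rfl⟩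
  have hτ : 0 < 1 / (9 * (4 / min κ 1 + 15 / ρ) ^ 4) := by positivity
  have hN0 : (0 : ℝ) ≤ (N₁ : ℝ) := Nat.cast_nonneg _
  refine ⟨ρ ^ 2 / (96 * ((N₁ : ℝ) + 1)), by positivity, fun m => ?_⟩
  obtain ⟨q, hq⟩ : ∃ q : ℕ, q = 96 * m * (N₁ + 1) + 2 := ⟨_, rfl⟩
  have hq2 : 2 ≤ q := by omega
  have hqr : (q : ℝ) = 96 * m * ((N₁ : ℝ) + 1) + 2 := by rw [hq]; push_cast; ring
  have hm0 : (0 : ℝ) ≤ (m : ℝ) := Nat.cast_nonneg _
  have hq1 : (1 : ℝ) ≤ (q : ℝ) := by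
    have : (2 : ℝ) ≤ q := by exact_mod_cast hq2
    linarith
  refine ⟨expo q, (D11_expo q hq2).1, (D11_expo q hq2).2, ?_⟩
  intro Γ _ _ A W ν c r hst hdis hS hcard hball hr hsum hU
  have hκS : ∀ s ∈ W.S, min κ 1 ≤ A.kk s := fun s hs => (min_le_left _ _).trans (hS s hs)
  have hUc : IsClosed (⋃ l, closedBall (c l) (r l)) :=
    isClosed_iUnion_of_finite fun l => isClosed_closedBall
  have ht : ∀ j : ℕ, 0 < 1 / (2 * (q : ℝ) ^ j) ∧ 1 / (2 * (q : ℝ) ^ j) < 1 := by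
    intro j
    have h1 : (1 : ℝ) ≤ (q : ℝ) ^ j := one_le_pow₀ hq1
    refine ⟨by positivity, ?_⟩
    rw [div_lt_one (by positivity)]
    linarith
  have hV := fun j : ℕ => h9 Γ A W ν (min κ 1) ρ (1 / (2 * (q : ℝ) ^ j))
    (⋃ l, closedBall (c l) (r l)) hst hdis hκ' hκS hρ hball (ht j).1 (ht j).2 hUc hU
  refine h6 q (fun j => VT A (min κ 1 / 4) ρ (1 / (2 * (q : ℝ) ^ j))
    (⋃ l, closedBall (c l) (r l))) ν hq2 hst.prob hst.supp (fun j => (hV j).1)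
    (fun j => (hV j).2) ?_
  intro j k hk
  have h := h10 Γ A (min κ 1) ρ N₁ q m c r hdis hκ' (min_le_right _ _) hρ hρ1 (by omega)
    (by rw [hN₁]; exact hcard _ hτ) hr j k hk
  have hρ2 : 0 < ρ ^ 2 := by positivity
  have hN1 : (0 : ℝ) < (N₁ : ℝ) + 1 := by positivity
  have h1 : (∑ l, r l) / ρ ^ 2 ≤ 1 / (96 * ((N₁ : ℝ) + 1)) := by
    rw [div_le_div_iff₀ hρ2 (by positivity)]
    rw [le_div_iff₀ (by positivity)] at hsum
    linarith
  have h2 : (6 : ℝ) * q * (∑ l, r l) / ρ ^ 2 ≤ 6 * q * (1 / (96 * ((N₁ : ℝ) + 1))) := by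
    rw [mul_div_assoc]
    exact mul_le_mul_of_nonneg_left h1 (by positivity)
  have h3 : (N₁ : ℝ) * (6 * q * (1 / (96 * ((N₁ : ℝ) + 1)))) ≤ q / 16 := by
    have e1 : (N₁ : ℝ) * (6 * q * (1 / (96 * ((N₁ : ℝ) + 1)))) =
        (q / 16) * ((N₁ : ℝ) / ((N₁ : ℝ) + 1)) := by
      field_simp
      ring
    rw [e1]
    have e2 : (N₁ : ℝ) / ((N₁ : ℝ) + 1) ≤ 1 := by
      rw [div_le_one hN1]; linarith
    exact mul_le_of_le_one_right (by positivity) e2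
  have h4 : (8 : ℝ) * ((chi q j k (VT A (min κ 1 / 4) ρ (1 / (2 * (q : ℝ) ^ j))
      (⋃ l, closedBall (c l) (r l)))).card : ℝ) ≤ q := by
    have h5 : (N₁ : ℝ) * (6 * q * (∑ l, r l) / ρ ^ 2 + 6 * m) ≤ q / 16 + 6 * m * N₁ := by
      have h6' := mul_le_mul_of_nonneg_left h2 hN0
      have e : (N₁ : ℝ) * (6 * q * (∑ l, r l) / ρ ^ 2 + 6 * m) =
          N₁ * (6 * q * (∑ l, r l) / ρ ^ 2) + 6 * m * N₁ := by ring
      rw [e]
      linarith
    have h7 : (96 : ℝ) * m * N₁ ≤ q := by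
      rw [hqr]
      have e : (96 : ℝ) * m * ((N₁ : ℝ) + 1) = 96 * m * N₁ + 96 * m := by ring
      rw [e]
      linarith
    linarith
  exact_mod_cast h4

end Pool.Agent.SG
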