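import Pool.Agent.helper17.SG.SpecM

/-!
# sg: M06, exit from large finite sets
-/

set_option autoImplicit false

open MeasureTheory Set Metric Filter Topology
open scoped ENNReal NNReal ComplexConjugate

namespace Pool.Agent.SG

theorem M06 (hP05 : P05_stmt) (hP07 : P07_stmt) (hB03 : B03_stmt) (hB10 : B10_stmt)
    (hB14 : B14_stmt) (hM01 : M01_stmt) : M06_stmt := by
  intro Γ _ _ A W hA
  obtain ⟨M, hM1, hM⟩ := hB10 Γ A W.S
  obtain ⟨-, -, hfin⟩ := hB14 Γ A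
  obtain ⟨-, hk1, -⟩ := hB03 Γ A
  refine ⟨M, hM1, fun τ hτ hτ1 => ?_⟩
  have hMpos : 0 < M := by linarith
  have hD : {γ | τ < A.kk γ}.Finite :=
    (hfin hA τ hτ).subset fun γ (hγ : τ < A.kk γ) => hγ.le
  obtain ⟨hbal, hsum⟩ := hP07 Γ W {γ | τ < A.kk γ} hD
  obtain ⟨-, hle, hne, -⟩ := hP05 Γ W {γ | τ < A.kk γ}
  refine ⟨fun w => W.exi {γ | τ < A.kk γ} 1 w, hsum 1, hle 1, ?_, ?_⟩
  · intro w hw
    obtain ⟨h1, h2⟩ := hne 1 w hw
    have h3 : A.kk w ≤ τ := not_lt.1 h1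
    refine ⟨?_, h3⟩
    rw [div_le_iff₀ hMpos]
    rcases h2 with h2 | ⟨y, hy, s, hs, h2⟩
    · rw [h2, hk1]
      linarith
    · obtain ⟨-, h4, -⟩ := hM y s hs
      have h5 : τ < A.kk y := hy
      rw [h2, mul_comm]
      linarith
  · intro ν' hν' E hE
    obtain ⟨hprob, -, hone, -, -, hharm⟩ := hM01 Γ A W ν' hν'
    have h1 := hbal (fun x => nux A ν' x E) (hharm E hE)
      ⟨1, ENNReal.one_ne_top, fun x => by
        have := hprob x
        exact prob_le_one⟩ 1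
    rw [← h1]
    show ν' E = nux A ν' 1 E
    rw [hone]

end Pool.Agent.SG
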