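import Pool.Agent.helper80.SG.Spec

set_option autoImplicit false
set_option linter.unusedSectionVars false

namespace Pool.Agent.SG

open MvPolynomial Module Pool.Agent.SV

/-- rank-nullity for the joint map of a finite family on a subspace `K` -/
theorem EXT_aux {E Y Γ : Type} [AddCommGroup E] [Module ℂ E] [Module.Finite ℂ E]
    [AddCommGroup Y] [Module ℂ Y] [Fintype Γ] (K : Submodule ℂ E) (B : Γ → E →ₗ[ℂ] Y)
    (F : ↥K →ₗ[ℂ] (∀ γ, ↥(LinearMap.range (B γ))))
    (hF : ∀ k γ, ((F k γ : ↥(LinearMap.range (B γ))) : Y) = B γ k) :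
    finrank ℂ ↥(K ⊓ ⨅ γ, LinearMap.ker (B γ)) + finrank ℂ ↥(LinearMap.range F) =
      finrank ℂ K := by
  have hker : LinearMap.ker F = Submodule.comap K.subtype (K ⊓ ⨅ γ, LinearMap.ker (B γ)) := by
    ext k
    simp only [LinearMap.mem_ker, Submodule.mem_comap, Submodule.subtype_apply,
      Submodule.mem_inf, Submodule.mem_iInf]
    constructor
    · intro h
      refine ⟨k.2, fun γ => ?_⟩
      rw [← hF, h]
      rfl
    · rintro ⟨_, h⟩
      funext γ
      apply Subtype.ext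
      rw [hF, h γ]
      rfl
  have h1 := LinearMap.finrank_range_add_finrank_ker F
  have h2 : finrank ℂ ↥(LinearMap.ker F) = finrank ℂ ↥(K ⊓ ⨅ γ, LinearMap.ker (B γ)) := by
    rw [hker]
    exact (Submodule.comapSubtypeEquivOfLe inf_le_left).finrank_eq
  omega

theorem EXT : EXT_stmt := by
  intro E Y Z Γ _ _ _ _ _ _ _ _ K B C N hN hK hBC
  classical
  -- the two joint maps
  let FB : ↥K →ₗ[ℂ] (∀ γ, ↥(LinearMap.range (B γ))) :=
    LinearMap.pi (fun γ => (B γ).rangeRestrict ∘ₗ K.subtype)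
  let FC : ↥K →ₗ[ℂ] (∀ γ, ↥(LinearMap.range (C γ))) :=
    LinearMap.pi (fun γ => (C γ).rangeRestrict ∘ₗ K.subtype)
  have hB := EXT_aux K B FB (fun k γ => rfl)
  have hC := EXT_aux K C FC (fun k γ => rfl)
  have hdB : finrank ℂ (∀ γ, ↥(LinearMap.range (B γ))) =
      ∑ γ, finrank ℂ ↥(LinearMap.range (B γ)) := Module.finrank_pi_fintype ℂ
  have hdC : finrank ℂ (∀ γ, ↥(LinearMap.range (C γ))) =
      ∑ γ, finrank ℂ ↥(LinearMap.range (C γ)) := Module.finrank_pi_fintype ℂ
  have hsum : ∑ γ, finrank ℂ ↥(LinearMap.range (B γ)) ≤ Fintype.card Γ * N := by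
    calc ∑ γ, finrank ℂ ↥(LinearMap.range (B γ)) ≤ ∑ _γ : Γ, N := Finset.sum_le_sum (fun γ _ => hN γ)
      _ = Fintype.card Γ * N := by simp
  have hsurB : LinearMap.range FB = ⊤ := by
    apply Submodule.eq_top_of_finrank_eq
    apply le_antisymm (Submodule.finrank_le _)
    rw [hdB]
    omega
  have hsurC : LinearMap.range FC = ⊤ := by
    rw [LinearMap.range_eq_top] at hsurB ⊢
    intro z
    choose e he using fun γ => (z γ).2
    obtain ⟨k, hk⟩ := hsurB (fun γ => ⟨B γ (e γ), LinearMap.mem_range_self _ _⟩)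
    refine ⟨k, ?_⟩
    funext γ
    apply Subtype.ext
    have h1 : B γ (k : E) = B γ (e γ) := congrArg Subtype.val (congrFun hk γ)
    have h2 : (k : E) - e γ ∈ LinearMap.ker (B γ) := by
      rw [LinearMap.mem_ker, map_sub, h1, sub_self]
    have h3 := hBC γ h2
    rw [LinearMap.mem_ker, map_sub, sub_eq_zero] at h3
    show C γ (k : E) = (z γ : Z)
    rw [h3, he γ]
  have hfin : finrank ℂ ↥(LinearMap.range FC) = ∑ γ, finrank ℂ ↥(LinearMap.range (C γ)) := by
    rw [hsurC, finrank_top, hdC]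
  omega

end Pool.Agent.SG
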